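import Mathlib
import Pool.Agent.W109.LT.Defs
import Pool.Agent.H373R2.T7.SysCount

/-! The variance of the sifted counts. -/

set_option autoImplicit false

namespace Pool.Agent.W32.LT

open Finset Pool.Agent.H373R2.T7 Pool.Agent.W109.LT

/-! ### Elementary inequalities -/

lemma prod_le_prod_add {ι : Type*} [DecidableEq ι] (S : Finset ι) (a b d : ι → ℝ)
    (ha : ∀ p ∈ S, 0 ≤ a p ∧ a p ≤ 1) (hb : ∀ p ∈ S, 0 ≤ b p ∧ b p ≤ 1)
    (hd : ∀ p ∈ S, 0 ≤ d p) (h : ∀ p ∈ S, a p ≤ b p + d p) :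
    ∏ p ∈ S, a p ≤ ∏ p ∈ S, b p + ∑ p ∈ S, d p := by
  induction S using Finset.induction_on with
  | empty => simp
  | insert q S hq ih =>
    rw [prod_insert hq, prod_insert hq, sum_insert hq]
    have ih' := ih (fun p hp => ha p (mem_insert_of_mem hp)) (fun p hp => hb p (mem_insert_of_mem hp))
      (fun p hp => hd p (mem_insert_of_mem hp)) (fun p hp => h p (mem_insert_of_mem hp))
    have a1 := ha q (mem_insert_self q S)
    have b1 := hb q (mem_insert_self q S)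
    have d1 := hd q (mem_insert_self q S)
    have h1 := h q (mem_insert_self q S)
    have B0 : 0 ≤ ∏ p ∈ S, b p := prod_nonneg fun p hp => (hb p (mem_insert_of_mem hp)).1
    have B1 : ∏ p ∈ S, b p ≤ 1 :=
      prod_le_one (fun p hp => (hb p (mem_insert_of_mem hp)).1)
        (fun p hp => (hb p (mem_insert_of_mem hp)).2)
    have D0 : 0 ≤ ∑ p ∈ S, d p := sum_nonneg fun p hp => hd p (mem_insert_of_mem hp)
    calc a q * ∏ p ∈ S, a p ≤ a q * (∏ p ∈ S, b p + ∑ p ∈ S, d p) :=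
          mul_le_mul_of_nonneg_left ih' a1.1
      _ = a q * ∏ p ∈ S, b p + a q * ∑ p ∈ S, d p := by ring
      _ ≤ (b q + d q) * ∏ p ∈ S, b p + 1 * ∑ p ∈ S, d p :=
          add_le_add (mul_le_mul_of_nonneg_right h1 B0) (mul_le_mul_of_nonneg_right a1.2 D0)
      _ ≤ b q * ∏ p ∈ S, b p + (d q + ∑ p ∈ S, d p) := by nlinarith

lemma card_primes_le (y n : ℕ) (e : ℕ) (X : ℝ) (hy : 1 ≤ y) (hn : 1 ≤ n) (hnX : (n : ℝ) ≤ X)
    (hX : X ≤ ((y : ℝ) + 1) ^ e) (S : Finset ℕ) (hS : ∀ p ∈ S, p.Prime ∧ y < p ∧ p ∣ n) :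
    S.card ≤ e := by
  have h1 : ∏ p ∈ S, p ∣ n := Finset.prod_primes_dvd n (fun p hp => (hS p hp).1.prime)
    (fun p hp => (hS p hp).2.2)
  have h2 : (y + 1) ^ S.card ≤ ∏ p ∈ S, p := by
    rw [← prod_const]
    exact prod_le_prod' fun p hp => (hS p hp).2.1
  have h3 : (y + 1) ^ S.card ≤ n := h2.trans (Nat.le_of_dvd hn h1)
  have h4 : ((y : ℝ) + 1) ^ S.card ≤ ((y : ℝ) + 1) ^ e := by
    have : (((y + 1) ^ S.card : ℕ) : ℝ) ≤ n := by exact_mod_cast h3
    push_cast at this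
    linarith
  have hy' : (1 : ℝ) < (y : ℝ) + 1 := by
    have : (1 : ℝ) ≤ y := by exact_mod_cast hy
    linarith
  exact (pow_le_pow_iff_right₀ hy').1 h4

/-! ### The systems of classes -/

/-- the conditions for the pair `k, k'` -/
def Qs (y z c k k' : ℕ) (s s' : Prop) (p m : ℕ) : Prop :=
  (p ≤ y ∧ (p ∣ c + k * m ∨ p ∣ c + k' * m)) ∨
    (y < p ∧ p ≤ z ∧ ¬ p ∣ c ∧ ((s ∧ p ∣ c + k * m) ∨ (s' ∧ p ∣ c + k' * m)))

lemma dvd_mod (c k p n : ℕ) : p ∣ c + k * n ↔ p ∣ c + k * (n % p) := by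
  have h : c + k * n ≡ c + k * (n % p) [MOD p] :=
    Nat.ModEq.add_left c (Nat.ModEq.mul_left k (Nat.mod_modEq n p).symm)
  exact h.dvd_iff dvd_rfl

open Classical in
lemma card_sol_le_one (c k p : ℕ) (hp : p.Prime) (h : ¬ (p ∣ k ∧ p ∣ c)) :
    ((range p).filter (fun r => p ∣ c + k * r)).card ≤ 1 := by
  rw [card_le_one]
  intro a ha b hb
  rw [mem_filter, mem_range] at ha hb
  have hk : ¬ p ∣ k := by
    intro hk
    exact h ⟨hk, (Nat.dvd_add_left (hk.mul_right a)).1 ha.2⟩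
  have h1 : c + k * a ≡ c + k * b [MOD p] :=
    ((Nat.modEq_zero_iff_dvd.2 ha.2).trans (Nat.modEq_zero_iff_dvd.2 hb.2).symm)
  have h2 : k * a ≡ k * b [MOD p] := Nat.ModEq.add_left_cancel' c h1
  have h3 : a ≡ b [MOD p] := by
    refine Nat.ModEq.cancel_left_of_coprime ?_ h2
    exact (Nat.Prime.coprime_iff_not_dvd hp).2 hk
  exact Nat.ModEq.eq_of_lt_of_lt h3 ha.1 hb.1

lemma Qs_per (y z c k k' : ℕ) (s s' : Prop) (p n : ℕ) :
    Qs y z c k k' s s' p n ↔ Qs y z c k k' s s' p (n % p) := by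
  unfold Qs
  rw [dvd_mod c k p n, dvd_mod c k' p n]

open Classical in
lemma nuB_Qs_le_two (y z c k k' : ℕ) (s s' : Prop) (p : ℕ) (hp : p.Prime)
    (h1 : ∀ p ∈ pz y, ¬ (p ∣ k ∧ p ∣ c)) (h2 : ∀ p ∈ pz y, ¬ (p ∣ k' ∧ p ∣ c)) :
    nuB (Qs y z c k k' s s') p ≤ 2 := by
  have key : ¬ (p ∣ k ∧ p ∣ c) → ¬ (p ∣ k' ∧ p ∣ c) →
      nuB (Qs y z c k k' s s') p ≤ 2 := by
    intro a1 a2
    unfold nuB
    calc ((range p).filter (fun r => Qs y z c k k' s s' p r)).card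
        ≤ ((range p).filter (fun r => p ∣ c + k * r) ∪
            (range p).filter (fun r => p ∣ c + k' * r)).card := by
          apply card_le_card
          intro r hr
          rw [mem_filter] at hr
          rw [mem_union, mem_filter, mem_filter]
          rcases hr.2 with ⟨_, h | h⟩ | ⟨_, _, _, ⟨_, h⟩ | ⟨_, h⟩⟩
          · exact Or.inl ⟨hr.1, h⟩
          · exact Or.inr ⟨hr.1, h⟩
          · exact Or.inl ⟨hr.1, h⟩
          · exact Or.inr ⟨hr.1, h⟩
      _ ≤ _ := card_union_le _ _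
      _ ≤ 1 + 1 := add_le_add (card_sol_le_one c k p hp a1) (card_sol_le_one c k' p hp a2)
  rcases Nat.lt_or_ge y p with hyp | hyp
  · by_cases hc : p ∣ c
    · have : nuB (Qs y z c k k' s s') p = 0 := by
        unfold nuB
        rw [card_eq_zero, filter_eq_empty_iff]
        intro r _ hr
        rcases hr with ⟨h, _⟩ | ⟨_, _, h, _⟩
        · omega
        · exact h hc
      omega
    · exact key (fun h => hc h.2) (fun h => hc h.2)
  · have hm : p ∈ pz y := mem_pz.2 ⟨hyp, hp⟩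
    exact key (h1 p hm) (h2 p hm)

open Classical in
/-- the number of `m` in `(M, 2M]` -/
noncomputable def Nc (M y z c k k' : ℕ) (s s' : Prop) : ℝ :=
  (((Ioc M (2 * M)).filter (fun m : ℕ => ∀ p ∈ pz z, ¬ Qs y z c k k' s s' p m)).card : ℝ)

lemma Nc_est (E : ℕ) : ∃ M0 : ℕ, ∀ M : ℕ, M0 ≤ M → ∀ y z c k k' : ℕ, 1 ≤ z →
    (z : ℝ) ≤ Real.log M ^ E → (∀ p ∈ pz y, ¬ (p ∣ k ∧ p ∣ c)) →
    (∀ p ∈ pz y, ¬ (p ∣ k' ∧ p ∣ c)) → ∀ s s' : Prop,
    |Nc M y z c k k' s s' - M * ∏ p ∈ pz z, (1 - (nuB (Qs y z c k k' s s') p : ℝ) / p)| ≤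
      3 * M / Real.log M ^ (E + 1) := by
  classical
  obtain ⟨N0, h0⟩ := sys_count 2 E (E + 1) (by norm_num)
  refine ⟨max N0 3, fun M hM y z c k k' hz hzE h1 h2 s s' => ?_⟩
  have hM0 : N0 ≤ M := le_trans (le_max_left _ _) hM
  have hM3 : 3 ≤ M := le_trans (le_max_right _ _) hM
  have hMr : (3 : ℝ) ≤ M := by exact_mod_cast hM3
  have hL0 : 0 < Real.log M := Real.log_pos (by linarith)
  have hLL : Real.log M ≤ Real.log ((2 * M : ℕ) : ℝ) := by
    apply Real.log_le_log (by linarith)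
    push_cast
    linarith
  have hQ : PerB (Qs y z c k k' s s') 2 :=
    ⟨Qs_per y z c k k' s s', fun p hp => nuB_Qs_le_two y z c k k' s s' p hp h1 h2⟩
  have e1 := h0 M hM0 z hz hzE _ hQ
  have e2 := h0 (2 * M) (by omega) z hz (hzE.trans (by gcongr)) _ hQ
  set P := ∏ p ∈ pz z, (1 - (nuB (Qs y z c k k' s s') p : ℝ) / p) with hP
  have hsplit : Nc M y z c k k' s s' =
      (((Icc 1 (2 * M)).filter (fun n : ℕ => ∀ p ∈ pz z, ¬ Qs y z c k k' s s' p n)).card : ℝ) -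
      (((Icc 1 M).filter (fun n : ℕ => ∀ p ∈ pz z, ¬ Qs y z c k k' s s' p n)).card : ℝ) := by
    unfold Nc
    rw [eq_sub_iff_add_eq, ← Nat.cast_add, ← card_union_of_disjoint]
    · congr 2
      rw [← filter_union]
      congr 1
      ext n
      simp only [mem_union, mem_Ioc, mem_Icc]
      omega
    · apply disjoint_filter_filter
      rw [disjoint_left]
      intro n h1 h2
      rw [mem_Ioc] at h1
      rw [mem_Icc] at h2
      omega
  rw [hsplit]
  have e3 : (((2 * M : ℕ) : ℝ)) / Real.log ((2 * M : ℕ) : ℝ) ^ (E + 1) ≤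
      2 * M / Real.log M ^ (E + 1) := by
    push_cast
    push_cast at hLL
    gcongr
  have e4 : |(((Icc 1 (2 * M)).filter (fun n : ℕ => ∀ p ∈ pz z, ¬ Qs y z c k k' s s' p n)).card : ℝ)
      - 2 * M * P| ≤ 2 * M / Real.log M ^ (E + 1) := by
    have := e2.trans e3
    push_cast at this
    exact this
  rw [abs_le] at e1 e4 ⊢
  have e5 : 3 * (M : ℝ) / Real.log M ^ (E + 1) =
      2 * M / Real.log M ^ (E + 1) + M / Real.log M ^ (E + 1) := by ring
  rw [e5]
  constructor <;> linarith [e1.1, e1.2, e4.1, e4.2]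

/-! ### The local factors -/

/-- primes of the second kind -/
noncomputable def P1 (y z c : ℕ) : Finset ℕ :=
  open Classical in (pz z).filter (fun p => y < p ∧ ¬ p ∣ c)

open Classical in
/-- the other primes -/
noncomputable def P0 (y z c : ℕ) : Finset ℕ := (pz z).filter (fun p => ¬ (y < p ∧ ¬ p ∣ c))

/-- a local factor -/
noncomputable def fc (y z c k k' : ℕ) (s s' : Prop) (p : ℕ) : ℝ :=
  1 - (nuB (Qs y z c k k' s s') p : ℝ) / p

lemma fc_mem (y z c k k' : ℕ) (s s' : Prop) (p : ℕ) :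
    0 ≤ fc y z c k k' s s' p ∧ fc y z c k k' s s' p ≤ 1 := by
  unfold fc
  have h := nuB_le (Qs y z c k k' s s') p
  have h1 : (nuB (Qs y z c k k' s s') p : ℝ) ≤ p := by exact_mod_cast h
  constructor
  · have : (nuB (Qs y z c k k' s s') p : ℝ) / p ≤ 1 := div_le_one_of_le₀ h1 (Nat.cast_nonneg _)
    linarith
  · have : 0 ≤ (nuB (Qs y z c k k' s s') p : ℝ) / p := by positivity
    linarith

lemma prod_split (y z c : ℕ) (f : ℕ → ℝ) :
    ∏ p ∈ pz z, f p = (∏ p ∈ P1 y z c, f p) * ∏ p ∈ P0 y z c, f p := by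
  unfold P1 P0
  exact (prod_filter_mul_prod_filter_not _ _ _).symm

lemma mem_P1 {y z c p : ℕ} : p ∈ P1 y z c ↔ p ≤ z ∧ p.Prime ∧ y < p ∧ ¬ p ∣ c := by
  classical
  unfold P1
  rw [mem_filter, mem_pz]
  tauto

lemma mem_P0 {y z c p : ℕ} : p ∈ P0 y z c ↔ p ≤ z ∧ p.Prime ∧ ¬ (y < p ∧ ¬ p ∣ c) := by
  classical
  unfold P0
  rw [mem_filter, mem_pz]
  tauto

/-- the common product -/
noncomputable def GG (y z c k k' : ℕ) : ℝ := ∏ p ∈ P0 y z c, fc y z c k k' True True p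

lemma GG_mem (y z c k k' : ℕ) : 0 ≤ GG y z c k k' ∧ GG y z c k k' ≤ 1 :=
  ⟨prod_nonneg fun p _ => (fc_mem y z c k k' True True p).1,
    prod_le_one (fun p _ => (fc_mem y z c k k' True True p).1)
      (fun p _ => (fc_mem y z c k k' True True p).2)⟩

open Classical in
lemma fc_P0 {y z c k k' : ℕ} (s s' : Prop) {p : ℕ} (hp : p ∈ P0 y z c) :
    fc y z c k k' s s' p = fc y z c k k' True True p := by
  rw [mem_P0] at hp
  have e : ∀ r, Qs y z c k k' s s' p r ↔ Qs y z c k k' True True p r := by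
    intro r
    unfold Qs
    constructor
    · rintro (h | ⟨h1, h2, h3, h4⟩)
      · exact Or.inl h
      · exact absurd ⟨h1, h3⟩ hp.2.2
    · rintro (h | ⟨h1, h2, h3, h4⟩)
      · exact Or.inl h
      · exact absurd ⟨h1, h3⟩ hp.2.2
  have e2 : nuB (Qs y z c k k' s s') p = nuB (Qs y z c k k' True True) p := by
    unfold nuB
    congr 1
    apply filter_congr
    intro r _
    exact e r
  unfold fc
  rw [e2]

lemma prod_fc (y z c k k' : ℕ) (s s' : Prop) :
    ∏ p ∈ pz z, (1 - (nuB (Qs y z c k k' s s') p : ℝ) / p) =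
      (∏ p ∈ P1 y z c, fc y z c k k' s s' p) * GG y z c k k' := by
  rw [prod_split y z c]
  congr 1
  unfold GG
  exact prod_congr rfl fun p hp => fc_P0 s s' hp

lemma V1_eq (y z c : ℕ) : V1 y z c = ∏ p ∈ P1 y z c, (1 - 1 / (p : ℝ)) := by
  unfold V1 P1
  rfl

lemma one_sub_mem {p : ℕ} (hp : p.Prime) : 0 ≤ 1 - 1 / (p : ℝ) ∧ 1 - 1 / (p : ℝ) ≤ 1 := by
  have h2 : (1 : ℝ) ≤ p := by exact_mod_cast hp.one_le
  have h3 : 1 / (p : ℝ) ≤ 1 := by rw [div_le_one (by linarith)]; exact h2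
  have h4 : 0 ≤ 1 / (p : ℝ) := by positivity
  constructor <;> linarith

lemma V1_mem (y z c : ℕ) : 0 ≤ V1 y z c ∧ V1 y z c ≤ 1 := by
  rw [V1_eq]
  exact ⟨prod_nonneg fun p hp => (one_sub_mem (mem_P1.1 hp).2.1).1,
    prod_le_one (fun p hp => (one_sub_mem (mem_P1.1 hp).2.1).1)
      (fun p hp => (one_sub_mem (mem_P1.1 hp).2.1).2)⟩

open Classical in
lemma fc_ff {y z c k k' p : ℕ} (hp : p ∈ P1 y z c) : fc y z c k k' False False p = 1 := by
  rw [mem_P1] at hp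
  have : nuB (Qs y z c k k' False False) p = 0 := by
    unfold nuB
    rw [card_eq_zero, filter_eq_empty_iff]
    intro r _ hr
    rcases hr with ⟨h, _⟩ | ⟨_, _, _, h | h⟩
    · omega
    · exact h.1
    · exact h.1
  unfold fc
  rw [this]
  simp

open Classical in
lemma fc_tf {y z c k k' p : ℕ} (hp : p ∈ P1 y z c) :
    1 - 1 / (p : ℝ) ≤ fc y z c k k' True False p := by
  rw [mem_P1] at hp
  have : nuB (Qs y z c k k' True False) p ≤ 1 := by
    refine le_trans ?_ (card_sol_le_one c k p hp.2.1 (fun h => hp.2.2.2 h.2))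
    unfold nuB
    apply card_le_card
    intro r hr
    rw [mem_filter] at hr ⊢
    rcases hr.2 with ⟨h, _⟩ | ⟨_, _, _, h | h⟩
    · omega
    · exact ⟨hr.1, h.2⟩
    · exact absurd h.1 id
  have h1 : (nuB (Qs y z c k k' True False) p : ℝ) ≤ 1 := by exact_mod_cast this
  unfold fc
  have : (nuB (Qs y z c k k' True False) p : ℝ) / p ≤ 1 / p :=
    div_le_div_of_nonneg_right h1 (Nat.cast_nonneg _)
  linarith

open Classical in
lemma fc_ft {y z c k k' p : ℕ} (hp : p ∈ P1 y z c) :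
    1 - 1 / (p : ℝ) ≤ fc y z c k k' False True p := by
  rw [mem_P1] at hp
  have : nuB (Qs y z c k k' False True) p ≤ 1 := by
    refine le_trans ?_ (card_sol_le_one c k' p hp.2.1 (fun h => hp.2.2.2 h.2))
    unfold nuB
    apply card_le_card
    intro r hr
    rw [mem_filter] at hr ⊢
    rcases hr.2 with ⟨h, _⟩ | ⟨_, _, _, h | h⟩
    · omega
    · exact absurd h.1 id
    · exact ⟨hr.1, h.2⟩
  have h1 : (nuB (Qs y z c k k' False True) p : ℝ) ≤ 1 := by exact_mod_cast this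
  unfold fc
  have : (nuB (Qs y z c k k' False True) p : ℝ) / p ≤ 1 / p :=
    div_le_div_of_nonneg_right h1 (Nat.cast_nonneg _)
  linarith

lemma exists_sol (c k p : ℕ) (hp : p.Prime) (hk : ¬ p ∣ k) : ∃ r ∈ range p, p ∣ c + k * r := by
  have := Fact.mk hp
  have hk' : (k : ZMod p) ≠ 0 := by
    intro h
    exact hk ((ZMod.natCast_eq_zero_iff _ _).1 h)
  refine ⟨(-(c : ZMod p) / k).val, mem_range.2 (ZMod.val_lt _), ?_⟩
  rw [← ZMod.natCast_eq_zero_iff]
  push_cast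
  rw [ZMod.natCast_val, ZMod.cast_id', id]
  field_simp
  ring

open Classical in
lemma fc_tt {y z c k k' p : ℕ} (hp : p ∈ P1 y z c) (h1 : ¬ p ∣ k) (h2 : ¬ p ∣ k')
    (h3 : ¬ k ≡ k' [MOD p]) : fc y z c k k' True True p ≤ (1 - 1 / (p : ℝ)) ^ 2 := by
  have hp' := mem_P1.1 hp
  obtain ⟨r1, hr1, hd1⟩ := exists_sol c k p hp'.2.1 h1
  obtain ⟨r2, hr2, hd2⟩ := exists_sol c k' p hp'.2.1 h2
  have hne : r1 ≠ r2 := by
    rintro rfl
    have e1 : c + k * r1 ≡ c + k' * r1 [MOD p] :=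
      (Nat.modEq_zero_iff_dvd.2 hd1).trans (Nat.modEq_zero_iff_dvd.2 hd2).symm
    have e2 : k * r1 ≡ k' * r1 [MOD p] := Nat.ModEq.add_left_cancel' c e1
    by_cases hr : p ∣ r1
    · exact hp'.2.2.2 ((Nat.dvd_add_left (hr.mul_left k)).1 hd1)
    · exact h3 (Nat.ModEq.cancel_right_of_coprime
        ((Nat.Prime.coprime_iff_not_dvd hp'.2.1).2 hr) e2)
  have hc : 2 ≤ nuB (Qs y z c k k' True True) p := by
    unfold nuB
    rw [← card_pair hne]
    apply card_le_card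
    intro r hr
    rw [mem_insert, mem_singleton] at hr
    rw [mem_filter]
    rcases hr with rfl | rfl
    · exact ⟨hr1, Or.inr ⟨hp'.2.2.1, hp'.1, hp'.2.2.2, Or.inl ⟨trivial, hd1⟩⟩⟩
    · exact ⟨hr2, Or.inr ⟨hp'.2.2.1, hp'.1, hp'.2.2.2, Or.inr ⟨trivial, hd2⟩⟩⟩
  have hc' : (2 : ℝ) ≤ nuB (Qs y z c k k' True True) p := by exact_mod_cast hc
  unfold fc
  have : (2 : ℝ) / p ≤ (nuB (Qs y z c k k' True True) p : ℝ) / p :=
    div_le_div_of_nonneg_right hc' (Nat.cast_nonneg _)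
  have h5 : (1 - 1 / (p : ℝ)) ^ 2 = 1 - 2 / p + (1 / (p : ℝ)) ^ 2 := by ring
  rw [h5]
  have : 0 ≤ (1 / (p : ℝ)) ^ 2 := by positivity
  linarith

/-- the main bound for the product -/
lemma prod_tt_le (y z c k k' e : ℕ) (X : ℝ) (hy : 1 ≤ y) (hk : 1 ≤ k) (hk' : 1 ≤ k')
    (hne : k ≠ k') (hkX : (k : ℝ) ≤ X) (hkX' : (k' : ℝ) ≤ X) (hX : X ≤ ((y : ℝ) + 1) ^ e) :
    ∏ p ∈ P1 y z c, fc y z c k k' True True p ≤ V1 y z c ^ 2 + 6 * e / y := by
  classical
  have hy0 : (0 : ℝ) < y := by exact_mod_cast hy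
  set bad : ℕ → Prop := fun p => p ∣ k ∨ p ∣ k' ∨ k ≡ k' [MOD p] with hbad
  have h := prod_le_prod_add (P1 y z c) (fun p => fc y z c k k' True True p)
    (fun p => (1 - 1 / (p : ℝ)) ^ 2) (fun p => if bad p then 2 / (y : ℝ) else 0)
    (fun p _ => fc_mem y z c k k' True True p)
    (fun p hp => by
      have := one_sub_mem (mem_P1.1 hp).2.1
      exact ⟨by positivity, pow_le_one₀ this.1 this.2⟩)
    (fun p _ => by split_ifs <;> positivity)
    (fun p hp => by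
      by_cases hb : bad p
      · rw [if_pos hb]
        have h1 := (fc_mem y z c k k' True True p).2
        have hpy : (y : ℝ) < p := by exact_mod_cast (mem_P1.1 hp).2.2.1
        have h2 : 1 / (p : ℝ) ≤ 1 / y := one_div_le_one_div_of_le hy0 hpy.le
        have h3 : 2 / (y : ℝ) = 2 * (1 / y) := by ring
        have h4 : (1 - 1 / (p : ℝ)) ^ 2 = 1 - 2 * (1 / p) + (1 / (p : ℝ)) ^ 2 := by ring
        have h5 : 0 ≤ (1 / (p : ℝ)) ^ 2 := by positivity
        rw [h3, h4]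
        linarith
      · rw [if_neg hb, add_zero]
        simp only [hbad, not_or] at hb
        exact fc_tt hp hb.1 hb.2.1 hb.2.2)
  refine h.trans ?_
  rw [prod_pow, ← V1_eq]
  have h6 : ∑ p ∈ P1 y z c, (if bad p then 2 / (y : ℝ) else 0) ≤ 6 * e / y := by
    rw [← sum_filter, sum_const, nsmul_eq_mul]
    have hcard : ((P1 y z c).filter bad).card ≤ 3 * e := by
      have hs : (P1 y z c).filter bad ⊆ ((P1 y z c).filter (fun p => p ∣ k) ∪
          (P1 y z c).filter (fun p => p ∣ k')) ∪ (P1 y z c).filter (fun p => k ≡ k' [MOD p]) := by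
        intro p hp
        rw [mem_filter] at hp
        rw [mem_union, mem_union, mem_filter, mem_filter, mem_filter]
        rcases hp.2 with h | h | h
        · exact Or.inl (Or.inl ⟨hp.1, h⟩)
        · exact Or.inl (Or.inr ⟨hp.1, h⟩)
        · exact Or.inr ⟨hp.1, h⟩
      have c1 : ((P1 y z c).filter (fun p => p ∣ k)).card ≤ e :=
        card_primes_le y k e X hy hk hkX hX _ (fun p hp => by
          rw [mem_filter, mem_P1] at hp
          exact ⟨hp.1.2.1, hp.1.2.2.1, hp.2⟩)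
      have c2 : ((P1 y z c).filter (fun p => p ∣ k')).card ≤ e :=
        card_primes_le y k' e X hy hk' hkX' hX _ (fun p hp => by
          rw [mem_filter, mem_P1] at hp
          exact ⟨hp.1.2.1, hp.1.2.2.1, hp.2⟩)
      have c3 : ((P1 y z c).filter (fun p => k ≡ k' [MOD p])).card ≤ e := by
        rcases Nat.lt_or_gt_of_ne hne with hlt | hlt
        · refine card_primes_le y (k' - k) e X hy (by omega)
            (le_trans (by exact_mod_cast Nat.sub_le k' k) hkX') hX _ (fun p hp => ?_)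
          rw [mem_filter, mem_P1] at hp
          exact ⟨hp.1.2.1, hp.1.2.2.1, (Nat.modEq_iff_dvd' hlt.le).1 hp.2⟩
        · refine card_primes_le y (k - k') e X hy (by omega)
            (le_trans (by exact_mod_cast Nat.sub_le k k') hkX) hX _ (fun p hp => ?_)
          rw [mem_filter, mem_P1] at hp
          exact ⟨hp.1.2.1, hp.1.2.2.1, (Nat.modEq_iff_dvd' hlt.le).1 hp.2.symm⟩
      have := card_le_card hs
      have u1 := card_union_le ((P1 y z c).filter (fun p => p ∣ k) ∪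
          (P1 y z c).filter (fun p => p ∣ k')) ((P1 y z c).filter (fun p => k ≡ k' [MOD p]))
      have u2 := card_union_le ((P1 y z c).filter (fun p => p ∣ k))
          ((P1 y z c).filter (fun p => p ∣ k'))
      omega
    have hcr : (((P1 y z c).filter bad).card : ℝ) ≤ 3 * e := by exact_mod_cast hcard
    calc (((P1 y z c).filter bad).card : ℝ) * (2 / y) ≤ 3 * e * (2 / y) :=
          mul_le_mul_of_nonneg_right hcr (by positivity)
      _ = 6 * e / y := by ring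
  linarith

/-! ### The variance -/

/-- no prime factor up to `y` -/
def Ak (y c k m : ℕ) : Prop := ∀ p ∈ pz y, ¬ p ∣ c + k * m

/-- no prime factor of the second kind -/
def Bk (y z c k m : ℕ) : Prop := ∀ p ∈ pz z, y < p → ¬ p ∣ c → ¬ p ∣ c + k * m

open Classical in
/-- indicator -/
noncomputable def ia (y c k m : ℕ) : ℝ := if Ak y c k m then 1 else 0

open Classical in
/-- indicator -/
noncomputable def ib (y z c k m : ℕ) : ℝ := if Ak y c k m ∧ Bk y z c k m then 1 else 0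

lemma Kset_card (y c m K : ℕ) : ((Kset y c m K).card : ℝ) = ∑ k ∈ Icc 1 K, ia y c k m := by
  unfold Kset
  rw [card_filter]
  push_cast
  refine sum_congr rfl fun k _ => ?_
  by_cases h : Ak y c k m
  · have e : ia y c k m = 1 := if_pos h
    rw [e]
    exact if_pos h
  · have e : ia y c k m = 0 := if_neg h
    rw [e]
    exact if_neg h

lemma Xset_card (y z c m K : ℕ) : ((Xset y z c m K).card : ℝ) = ∑ k ∈ Icc 1 K, ib y z c k m := by
  unfold Xset Kset
  rw [filter_filter, card_filter]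
  push_cast
  refine sum_congr rfl fun k _ => ?_
  by_cases h : Ak y c k m ∧ Bk y z c k m
  · have e : ib y z c k m = 1 := if_pos h
    rw [e]
    exact if_pos h
  · have e : ib y z c k m = 0 := if_neg h
    rw [e]
    exact if_neg h

/-- the term of a pair -/
noncomputable def tt (y z c k k' m : ℕ) : ℝ :=
  (ib y z c k m - V1 y z c * ia y c k m) * (ib y z c k' m - V1 y z c * ia y c k' m)

lemma sq_eq (y z c m K : ℕ) :
    (((Xset y z c m K).card : ℝ) - V1 y z c * ((Kset y c m K).card : ℝ)) ^ 2 =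
      ∑ k ∈ Icc 1 K, ∑ k' ∈ Icc 1 K, tt y z c k k' m := by
  rw [Kset_card, Xset_card, mul_sum, ← sum_sub_distrib, sq, sum_mul_sum]
  rfl

lemma tt_diag (y z c k M : ℕ) : ∑ m ∈ Ioc M (2 * M), tt y z c k k m ≤ M := by
  have h : ∀ m ∈ Ioc M (2 * M), tt y z c k k m ≤ 1 := by
    intro m _
    have hV := V1_mem y z c
    unfold tt
    have h1 : |ib y z c k m - V1 y z c * ia y c k m| ≤ 1 := by
      unfold ib ia
      rw [abs_le]
      split_ifs <;> constructor <;> linarith [hV.1, hV.2]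
    rw [← sq, ← sq_abs]
    exact pow_le_one₀ (abs_nonneg _) h1
  refine (sum_le_sum h).trans ?_
  rw [sum_const, nsmul_eq_mul, mul_one, Nat.card_Ioc]
  have : 2 * M - M = M := by omega
  rw [this]

lemma tt_zero_left {y z c k k' m : ℕ} (h : ∃ p ∈ pz y, p ∣ k ∧ p ∣ c) : tt y z c k k' m = 0 := by
  obtain ⟨p, hp, h1, h2⟩ := h
  have hA : ¬ Ak y c k m := fun hA => hA p hp (dvd_add h2 (h1.mul_right m))
  have e1 : ib y z c k m = 0 := if_neg fun h => hA h.1
  have e2 : ia y c k m = 0 := if_neg hA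
  unfold tt
  rw [e1, e2]
  ring

lemma tt_zero_right {y z c k k' m : ℕ} (h : ∃ p ∈ pz y, p ∣ k' ∧ p ∣ c) :
    tt y z c k k' m = 0 := by
  obtain ⟨p, hp, h1, h2⟩ := h
  have hA : ¬ Ak y c k' m := fun hA => hA p hp (dvd_add h2 (h1.mul_right m))
  have e1 : ib y z c k' m = 0 := if_neg fun h => hA h.1
  have e2 : ia y c k' m = 0 := if_neg hA
  unfold tt
  rw [e1, e2]
  ring

open Classical in
lemma cond_iff {y z c k k' m : ℕ} (hyz : y ≤ z) (s s' : Prop) :
    (∀ p ∈ pz z, ¬ Qs y z c k k' s s' p m) ↔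
      (Ak y c k m ∧ Ak y c k' m ∧ (s → Bk y z c k m) ∧ (s' → Bk y z c k' m)) := by
  unfold Ak Bk Qs
  constructor
  · intro h
    refine ⟨fun p hp hd => ?_, fun p hp hd => ?_, fun hs p hp h1 h2 hd => ?_,
      fun hs p hp h1 h2 hd => ?_⟩
    · have hp' := mem_pz.1 hp
      exact h p (mem_pz.2 ⟨hp'.1.trans hyz, hp'.2⟩) (Or.inl ⟨hp'.1, Or.inl hd⟩)
    · have hp' := mem_pz.1 hp
      exact h p (mem_pz.2 ⟨hp'.1.trans hyz, hp'.2⟩) (Or.inl ⟨hp'.1, Or.inr hd⟩)
    · exact h p hp (Or.inr ⟨h1, (mem_pz.1 hp).1, h2, Or.inl ⟨hs, hd⟩⟩)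
    · exact h p hp (Or.inr ⟨h1, (mem_pz.1 hp).1, h2, Or.inr ⟨hs, hd⟩⟩)
  · rintro ⟨h1, h2, h3, h4⟩ p hp hQ
    have hp' := mem_pz.1 hp
    rcases hQ with ⟨hy, h | h⟩ | ⟨hy, hz, hc, ⟨hs, h⟩ | ⟨hs, h⟩⟩
    · exact h1 p (mem_pz.2 ⟨hy, hp'.2⟩) h
    · exact h2 p (mem_pz.2 ⟨hy, hp'.2⟩) h
    · exact h3 hs p hp hy hc h
    · exact h4 hs p hp hy hc h

open Classical in
lemma Nc_eq {M y z c k k' : ℕ} (hyz : y ≤ z) (s s' : Prop) :
    Nc M y z c k k' s s' = ∑ m ∈ Ioc M (2 * M),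
      (if s then ib y z c k m else ia y c k m) * (if s' then ib y z c k' m else ia y c k' m) := by
  unfold Nc
  rw [card_filter]
  push_cast
  refine sum_congr rfl fun m _ => ?_
  rw [if_congr (cond_iff hyz s s') rfl rfl]
  unfold ia ib
  by_cases h1 : Ak y c k m <;> by_cases h2 : Ak y c k' m <;> by_cases h3 : Bk y z c k m <;>
    by_cases h4 : Bk y z c k' m <;> by_cases hs : s <;> by_cases hs' : s' <;>
    simp [h1, h2, h3, h4, hs, hs']

lemma tt_sum {M y z c k k' : ℕ} (hyz : y ≤ z) :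
    ∑ m ∈ Ioc M (2 * M), tt y z c k k' m =
      Nc M y z c k k' True True - V1 y z c * Nc M y z c k k' True False -
        V1 y z c * Nc M y z c k k' False True + V1 y z c ^ 2 * Nc M y z c k k' False False := by
  rw [Nc_eq hyz, Nc_eq hyz, Nc_eq hyz, Nc_eq hyz]
  simp only [if_true, if_false]
  rw [mul_sum, mul_sum, mul_sum, ← sum_sub_distrib, ← sum_sub_distrib, ← sum_add_distrib]
  refine sum_congr rfl fun m _ => ?_
  unfold tt
  ring

lemma algebra_bound (M G V gg g1 g1' e R N1 N2 N3 N4 : ℝ) (hM : 0 ≤ M) (hG0 : 0 ≤ G)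
    (hG1 : G ≤ 1) (hV0 : 0 ≤ V) (hV1 : V ≤ 1) (he : 0 ≤ e) (hR : 0 ≤ R)
    (n1 : N1 - M * (gg * G) ≤ e) (n2 : -e ≤ N2 - M * (g1 * G)) (n3 : -e ≤ N3 - M * (g1' * G))
    (n4 : N4 - M * G ≤ e) (hg1 : V ≤ g1) (hg1' : V ≤ g1') (hgg : gg ≤ V ^ 2 + R) :
    N1 - V * N2 - V * N3 + V ^ 2 * N4 ≤ M * R + 4 * e := by
  have hMG : 0 ≤ M * G := mul_nonneg hM hG0
  have m2 : M * (V * G) ≤ M * (g1 * G) :=
    mul_le_mul_of_nonneg_left (mul_le_mul_of_nonneg_right hg1 hG0) hM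
  have m3 : M * (V * G) ≤ M * (g1' * G) :=
    mul_le_mul_of_nonneg_left (mul_le_mul_of_nonneg_right hg1' hG0) hM
  have q2 : V * (M * (V * G) - e) ≤ V * N2 := mul_le_mul_of_nonneg_left (by linarith) hV0
  have q3 : V * (M * (V * G) - e) ≤ V * N3 := mul_le_mul_of_nonneg_left (by linarith) hV0
  have q4 : V ^ 2 * N4 ≤ V ^ 2 * (M * G + e) :=
    mul_le_mul_of_nonneg_left (by linarith) (by positivity)
  have hV2 : V ^ 2 ≤ 1 := pow_le_one₀ hV0 hV1
  have q5 : V ^ 2 * e ≤ 1 * e := mul_le_mul_of_nonneg_right hV2 he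
  have q6 : V * e ≤ 1 * e := mul_le_mul_of_nonneg_right hV1 he
  have q7 : M * G * (gg - V ^ 2) ≤ M * G * R := mul_le_mul_of_nonneg_left (by linarith) hMG
  have q8 : M * G * R ≤ M * 1 * R :=
    mul_le_mul_of_nonneg_right (mul_le_mul_of_nonneg_left hG1 hM) hR
  have e1 : V * (M * (V * G) - e) = V ^ 2 * (M * G) - V * e := by ring
  have e2 : M * G * (gg - V ^ 2) = M * (gg * G) - V ^ 2 * (M * G) := by ring
  have e3 : V ^ 2 * (M * G + e) = V ^ 2 * (M * G) + V ^ 2 * e := by ring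
  rw [e1] at q2 q3
  rw [e2] at q7
  rw [e3] at q4
  linarith

theorem sK : S_K := by
  intro κ E r
  refine ⟨6 * (r * κ : ℕ) + 13, by positivity, ?_⟩
  obtain ⟨M0, h0⟩ := Nc_est E
  refine ⟨max M0 3, fun M hM y z K c hy hyr hyz hzE hK => ?_⟩
  have hM0 : M0 ≤ M := le_trans (le_max_left _ _) hM
  have hM3 : 3 ≤ M := le_trans (le_max_right _ _) hM
  have hMr : (3 : ℝ) ≤ M := by exact_mod_cast hM3
  have hMpos : (0 : ℝ) < M := by linarith
  have hL1 : 1 ≤ Real.log M := by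
    rw [Real.le_log_iff_exp_le hMpos]
    exact (Real.exp_one_lt_d9.le.trans (by norm_num)).trans hMr
  have hL0 : 0 < Real.log M := by linarith
  have hy0 : (0 : ℝ) < y := by exact_mod_cast hy
  have hyzr : (y : ℝ) ≤ z := by exact_mod_cast hyz
  have herr : 3 * (M : ℝ) / Real.log M ^ (E + 1) ≤ 3 * M / y := by
    apply div_le_div_of_nonneg_left (by positivity) hy0
    calc (y : ℝ) ≤ Real.log M ^ E := hyzr.trans hzE
      _ ≤ Real.log M ^ (E + 1) := pow_le_pow_right₀ hL1 (Nat.le_succ E)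
  set e : ℝ := 3 * M / y with he
  have he0 : 0 ≤ e := by positivity
  have hV := V1_mem y z c
  set V := V1 y z c with hVd
  have hXr : Real.log M ^ κ ≤ ((y : ℝ) + 1) ^ (r * κ) := by
    rw [pow_mul]
    exact pow_le_pow_left₀ hL0.le hyr κ
  -- off-diagonal terms
  have hoff : ∀ k ∈ Icc 1 K, ∀ k' ∈ Icc 1 K, k ≠ k' →
      ∑ m ∈ Ioc M (2 * M), tt y z c k k' m ≤ (6 * (r * κ : ℕ) + 12) * M / y := by
    intro k hk k' hk' hne
    rw [mem_Icc] at hk hk'
    have hB0 : 0 ≤ (6 * ((r * κ : ℕ) : ℝ) + 12) * M / y := by positivity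
    by_cases a1 : ∃ p ∈ pz y, p ∣ k ∧ p ∣ c
    · rw [sum_eq_zero fun m _ => tt_zero_left a1]
      exact hB0
    by_cases a2 : ∃ p ∈ pz y, p ∣ k' ∧ p ∣ c
    · rw [sum_eq_zero fun m _ => tt_zero_right a2]
      exact hB0
    have a1' : ∀ p ∈ pz y, ¬ (p ∣ k ∧ p ∣ c) := fun p hp h => a1 ⟨p, hp, h⟩
    have a2' : ∀ p ∈ pz y, ¬ (p ∣ k' ∧ p ∣ c) := fun p hp h => a2 ⟨p, hp, h⟩
    have est := fun s s' => (h0 M hM0 y z c k k' (hy.trans hyz) hzE a1' a2' s s').trans herr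
    have est' : ∀ s s' : Prop, |Nc M y z c k k' s s' -
        M * ((∏ p ∈ P1 y z c, fc y z c k k' s s' p) * GG y z c k k')| ≤ e := by
      intro s s'
      have := est s s'
      rwa [prod_fc] at this
    rw [tt_sum hyz]
    have n1 := est' True True
    have n2 := est' True False
    have n3 := est' False True
    have n4 := est' False False
    have hG := GG_mem y z c k k'
    set G := GG y z c k k' with hGd
    have g2 := prod_tt_le y z c k k' (r * κ) (Real.log M ^ κ) hy hk.1 hk'.1 hne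
      (le_trans (by exact_mod_cast hk.2) hK) (le_trans (by exact_mod_cast hk'.2) hK) hXr
    have gtf : V ≤ ∏ p ∈ P1 y z c, fc y z c k k' True False p := by
      rw [hVd, V1_eq]
      exact prod_le_prod (fun p hp => (one_sub_mem (mem_P1.1 hp).2.1).1) fun p hp => fc_tf hp
    have gft : V ≤ ∏ p ∈ P1 y z c, fc y z c k k' False True p := by
      rw [hVd, V1_eq]
      exact prod_le_prod (fun p hp => (one_sub_mem (mem_P1.1 hp).2.1).1) fun p hp => fc_ft hp
    have gff : ∏ p ∈ P1 y z c, fc y z c k k' False False p = 1 :=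
      prod_eq_one fun p hp => fc_ff hp
    rw [gff, one_mul] at n4
    rw [abs_le] at n1 n2 n3 n4
    rw [← hVd] at g2
    have hfin := algebra_bound (M : ℝ) G V _ _ _ e (6 * ((r * κ : ℕ) : ℝ) / y) _ _ _ _ hMpos.le
      hG.1 hG.2 hV.1 hV.2 he0 (by positivity) n1.2 n2.1 n3.1 n4.2 gtf gft g2
    have q8 : (6 * ((r * κ : ℕ) : ℝ) + 12) * M / y = M * (6 * ((r * κ : ℕ) : ℝ) / y) + 4 * e := by
      rw [he]; ring
    rw [q8]
    exact hfin
  -- sum over everything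
  have h1 : ∑ m ∈ Ioc M (2 * M),
      (((Xset y z c m K).card : ℝ) - V * ((Kset y c m K).card : ℝ)) ^ 2 =
      ∑ k ∈ Icc 1 K, ∑ k' ∈ Icc 1 K, ∑ m ∈ Ioc M (2 * M), tt y z c k k' m := by
    rw [sum_congr rfl fun m _ => sq_eq y z c m K, sum_comm]
    refine sum_congr rfl fun k _ => ?_
    rw [sum_comm]
  rw [h1]
  have h2 : ∀ k ∈ Icc 1 K, ∑ k' ∈ Icc 1 K, ∑ m ∈ Ioc M (2 * M), tt y z c k k' m ≤
      M + K * ((6 * (r * κ : ℕ) + 12) * M / y) := by
    intro k hk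
    rw [← add_sum_erase _ _ hk]
    apply add_le_add (tt_diag y z c k M)
    refine (sum_le_card_nsmul _ _ ((6 * ((r * κ : ℕ) : ℝ) + 12) * (M : ℝ) / (y : ℝ))
      fun k' hk' => ?_).trans ?_
    · rw [mem_erase] at hk'
      exact hoff k hk k' hk'.2 hk'.1.symm
    · rw [nsmul_eq_mul]
      apply mul_le_mul_of_nonneg_right _ (by positivity)
      rw [card_erase_of_mem hk, Nat.card_Icc]
      have : K + 1 - 1 - 1 ≤ K := by omega
      exact_mod_cast this
  refine (sum_le_sum h2).trans ?_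
  rw [sum_const, nsmul_eq_mul, Nat.card_Icc, Nat.add_sub_cancel]
  have hc : (0 : ℝ) ≤ ((r * κ : ℕ) : ℝ) := Nat.cast_nonneg _
  have hK0 : (0 : ℝ) ≤ K := Nat.cast_nonneg _
  have e1 : (K : ℝ) * (M + K * ((6 * ((r * κ : ℕ) : ℝ) + 12) * M / y)) =
      M * K + (6 * ((r * κ : ℕ) : ℝ) + 12) * (M * (K ^ 2 / y)) := by ring
  have e2 : (6 * ((r * κ : ℕ) : ℝ) + 13) * M * (K ^ 2 / y + K) =
      (6 * ((r * κ : ℕ) : ℝ) + 13) * (M * (K ^ 2 / y)) +
        (6 * ((r * κ : ℕ) : ℝ) + 13) * (M * K) := by ring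
  rw [e1, e2]
  have p1 : (0 : ℝ) ≤ M * (K ^ 2 / y) := by positivity
  have p2 : (0 : ℝ) ≤ M * K := by positivity
  nlinarith [mul_nonneg hc p2]

end Pool.Agent.W32.LT
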