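import Pool.Agent.W627.LT.Stm
import Pool.Agent.H343R2.EH.Defs

set_option autoImplicit false

namespace Pool.Agent.W32.LT

open Finset

lemma units_half (D : ℕ) [NeZero D] (χ : DirichletCharacter ℂ D) (hχ : χ ≠ 1) (c : ℕ → ℤ)
    (hc : ∀ n : ℕ, 1 ≤ n → χ (n : ZMod D) = (c n : ℂ)) :
    2 * ((univ : Finset (ZMod D)).filter (fun u => χ u = -1)).card = Nat.totient D := by
  classical
  have hval : ∀ u : ZMod D, IsUnit u → χ u = 1 ∨ χ u = -1 := by
    intro u hu
    have h1 : ‖χ u‖ = 1 := by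
      obtain ⟨w, rfl⟩ := hu
      exact DirichletCharacter.unit_norm_eq_one χ w
    have h2 : ((u.val + D : ℕ) : ZMod D) = u := by simp
    have h3 := hc (u.val + D) (by have := NeZero.pos D; omega)
    rw [h2] at h3
    rw [h3] at h1 ⊢
    rw [Complex.norm_intCast] at h1
    have h4 : |c (u.val + D)| = 1 := by exact_mod_cast h1
    rcases abs_eq (by norm_num : (0:ℤ) ≤ 1) |>.1 h4 with h | h
    · left; rw [h]; simp
    · right; rw [h]; simp
  have hsum : ∑ u : ZMod D, χ u = 0 := MulChar.sum_eq_zero_of_ne_one hχ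
  have hdec : ∀ u : ZMod D, χ u = (if χ u = 1 then (1:ℂ) else 0) - (if χ u = -1 then (1:ℂ) else 0) := by
    intro u
    by_cases hu : IsUnit u
    · rcases hval u hu with h | h
      · rw [h]; norm_num
      · rw [h]; norm_num
    · rw [MulChar.map_nonunit χ hu]
      norm_num
  rw [Finset.sum_congr rfl (fun u _ => hdec u), Finset.sum_sub_distrib, Finset.sum_boole,
    Finset.sum_boole, sub_eq_zero] at hsum
  have h1 : ((univ : Finset (ZMod D)).filter (fun u => χ u = 1)).card =
      ((univ : Finset (ZMod D)).filter (fun u => χ u = -1)).card := by exact_mod_cast hsum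
  have h2 : ((univ : Finset (ZMod D)).filter (fun u => IsUnit u)).card = Nat.totient D := by
    rw [← ZMod.card_units_eq_totient, ← Finset.card_univ]
    symm
    apply Finset.card_bij (fun (u : (ZMod D)ˣ) _ => (u : ZMod D))
    · intro u _; simp
    · intro u _ w _ h; exact Units.ext h
    · intro u hu
      obtain ⟨w, rfl⟩ := (Finset.mem_filter.1 hu).2
      exact ⟨w, Finset.mem_univ _, rfl⟩
  have h3 : (univ : Finset (ZMod D)).filter (fun u => IsUnit u) =
      ((univ : Finset (ZMod D)).filter (fun u => χ u = 1)) ∪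
      ((univ : Finset (ZMod D)).filter (fun u => χ u = -1)) := by
    ext u
    simp only [Finset.mem_filter, Finset.mem_univ, true_and, Finset.mem_union]
    constructor
    · exact hval u
    · intro h
      by_contra hu
      rw [MulChar.map_nonunit χ hu] at h
      rcases h with h | h
      · exact zero_ne_one h
      · norm_num at h
  have h4 : Disjoint ((univ : Finset (ZMod D)).filter (fun u => χ u = 1))
      ((univ : Finset (ZMod D)).filter (fun u => χ u = -1)) := by
    rw [Finset.disjoint_left]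
    intro u a b
    have a := (Finset.mem_filter.1 a).2
    have b := (Finset.mem_filter.1 b).2
    rw [a] at b
    norm_num at b
  rw [h3, Finset.card_union_of_disjoint h4, h1] at h2
  omega

theorem ltn (hS : ∃ x0 : ℕ, ∀ x : ℕ, x0 ≤ x → ∀ q : ℕ, 1 ≤ q → (q : ℝ) ≤ Real.log x ^ 2 →
    ∀ a : ℕ, a < q → a.Coprime q →
      |H343E.piAP x q a - H343E.pi1 x / (Nat.totient q : ℝ)| ≤ x / Real.log x ^ 6)
    (hKR : Pool.Agent.H38R2.CG.P_KR) (hP : Pool.Agent.W627.LT.S_P) (D : ℕ)
    (hD : Pool.Agent.H38R2.CG.IsFund D) :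
    ∃ y0 : ℕ, ∀ y : ℕ, y0 ≤ y → (y : ℝ) / (5 * Real.log y) ≤
      (((Pool.Agent.W627.LT.PQ y).filter
        (fun p => Pool.Agent.H38R2.CG.chi D p = -1)).card : ℝ) := by
  classical
  obtain ⟨x0, hx0⟩ := hS
  obtain ⟨y1, hy1⟩ := hP
  obtain ⟨χ, hχ, hc⟩ := hKR D hD
  have hD1 : 1 < D := hD.1
  have : NeZero D := ⟨by omega⟩
  have hhalf := units_half D χ hχ (fun n => Pool.Agent.H38R2.CG.chi D n) hc
  set S := (univ : Finset (ZMod D)).filter (fun u => χ u = -1) with hSdef
  have hphi : (0:ℝ) < Nat.totient D := by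
    exact_mod_cast Nat.totient_pos.2 (by omega)
  -- growth
  have hlog : Filter.Tendsto (fun y : ℕ => Real.log (y:ℝ)) Filter.atTop Filter.atTop :=
    Real.tendsto_log_atTop.comp tendsto_natCast_atTop_atTop
  have g1 : ∀ᶠ y : ℕ in Filter.atTop, max (D : ℝ) (20 * Nat.totient D) + 1 ≤ Real.log (y:ℝ) :=
    hlog.eventually_ge_atTop _
  have g2 : ∀ᶠ y : ℕ in Filter.atTop, 40 * Real.log (y:ℝ) ≤ y := by
    have h1 := Real.isLittleO_log_id_atTop.def (show (0:ℝ) < 1/40 by norm_num)
    have h2 := tendsto_natCast_atTop_atTop (R := ℝ) |>.eventually h1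
    filter_upwards [h2, Filter.eventually_ge_atTop 1] with y hy hy1
    have hy1' : (1:ℝ) ≤ y := by exact_mod_cast hy1
    rw [Real.norm_of_nonneg (Real.log_nonneg hy1'), id, Real.norm_of_nonneg (by linarith)] at hy
    linarith
  obtain ⟨y2, hy2⟩ := Filter.eventually_atTop.1 (g1.and g2)
  refine ⟨max (max x0 y1) y2, fun y hy => ?_⟩
  have hyx0 : x0 ≤ y := le_trans (le_trans (le_max_left _ _) (le_max_left _ _)) hy
  have hyy1 : y1 ≤ y := le_trans (le_trans (le_max_right _ _) (le_max_left _ _)) hy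
  obtain ⟨k1, k2⟩ := hy2 y (le_trans (le_max_right _ _) hy)
  set l := Real.log (y:ℝ) with hl
  have hlD : (D:ℝ) ≤ l := by linarith [le_max_left (D : ℝ) (20 * Nat.totient D)]
  have hlp : 20 * (Nat.totient D : ℝ) ≤ l := by linarith [le_max_right (D : ℝ) (20 * Nat.totient D)]
  have hl1 : 1 ≤ l := by
    have : (1:ℝ) < D := by exact_mod_cast hD1
    linarith
  have hl0 : 0 < l := by linarith
  have hy0 : (0:ℝ) < y := by linarith
  have hqlog : (D:ℝ) ≤ l ^ 2 := by nlinarith
  -- the progressions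
  have hap : ∀ u ∈ S, H343E.pi1 y / (Nat.totient D : ℝ) - y / l ^ 6 ≤ H343E.piAP y D u.val := by
    intro u hu
    have hu1 := (Finset.mem_filter.1 hu).2
    have hunit : IsUnit u := by
      by_contra h
      rw [MulChar.map_nonunit χ h] at hu1
      norm_num at hu1
    have hcop : u.val.Coprime D := ZMod.val_coe_unit_coprime hunit.unit
    have := hx0 y hyx0 D (by omega) hqlog u.val (ZMod.val_lt u) hcop
    have := (abs_le.1 this).1
    linarith
  have hcount : ∑ u ∈ S, H343E.piAP y D u.val =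
      (((Icc 1 y).filter (fun p : ℕ => p.Prime ∧ χ (p : ZMod D) = -1)).card : ℝ) := by
    unfold H343E.piAP
    rw [← Nat.cast_sum]
    congr 1
    rw [← Finset.card_biUnion]
    · congr 1
      ext p
      simp only [Finset.mem_biUnion, Finset.mem_filter, hSdef, Finset.mem_univ, true_and]
      constructor
      · rintro ⟨u, hu, hp1, hp2, hp3⟩
        refine ⟨hp1, hp2, ?_⟩
        have : (p : ZMod D) = u := by
          rw [← ZMod.natCast_eq_natCast_iff] at hp3
          rw [hp3, ZMod.natCast_val, ZMod.cast_id]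
        rw [this]; exact hu
      · rintro ⟨hp1, hp2, hp3⟩
        refine ⟨(p : ZMod D), hp3, hp1, hp2, ?_⟩
        rw [← ZMod.natCast_eq_natCast_iff, ZMod.natCast_val, ZMod.cast_id]
    · intro u _ w _ huw
      show Disjoint _ _
      rw [Finset.disjoint_left]
      intro p hp1 hp2
      have hp1 := (Finset.mem_filter.1 hp1).2.2
      have hp2 := (Finset.mem_filter.1 hp2).2.2
      rw [← ZMod.natCast_eq_natCast_iff, ZMod.natCast_val, ZMod.cast_id] at hp1 hp2
      exact huw (hp1.symm.trans hp2)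
  have hlow : (S.card : ℝ) * (H343E.pi1 y / (Nat.totient D : ℝ) - y / l ^ 6) ≤
      (((Icc 1 y).filter (fun p : ℕ => p.Prime ∧ χ (p : ZMod D) = -1)).card : ℝ) := by
    rw [← hcount, ← nsmul_eq_mul]
    exact Finset.card_nsmul_le_sum _ _ _ hap
  have hsub : (((Icc 1 y).filter (fun p : ℕ => p.Prime ∧ χ (p : ZMod D) = -1)).card : ℝ) ≤
      (((Pool.Agent.W627.LT.PQ y).filter
        (fun p => Pool.Agent.H38R2.CG.chi D p = -1)).card : ℝ) + 1 := by
    have h1 : (Icc 1 y).filter (fun p : ℕ => p.Prime ∧ χ (p : ZMod D) = -1) ⊆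
        insert 2 ((Pool.Agent.W627.LT.PQ y).filter
          (fun p => Pool.Agent.H38R2.CG.chi D p = -1)) := by
      intro p hp
      rw [Finset.mem_filter, Finset.mem_Icc] at hp
      obtain ⟨⟨a1, a2⟩, a3, a4⟩ := hp
      rw [Finset.mem_insert]
      rcases eq_or_ne p 2 with h | h
      · exact Or.inl h
      · right
        have := a3.two_le
        rw [Finset.mem_filter]
        refine ⟨Finset.mem_filter.2 ⟨Finset.mem_Icc.2 ⟨by omega, a2⟩, a3⟩, ?_⟩
        rw [hc p a1] at a4
        exact_mod_cast a4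
    have h2 := (Finset.card_le_card h1).trans (Finset.card_insert_le _ _)
    exact_mod_cast h2
  have hpi : (y:ℝ) / (2 * l) ≤ H343E.pi1 y := by
    refine (hy1 y hyy1).trans ?_
    unfold H343E.pi1
    have : (Pool.Agent.W627.LT.PQ y).card ≤ ((Icc 1 y).filter (fun p => p.Prime)).card := by
      apply Finset.card_le_card
      intro p hp
      have hp := Finset.mem_filter.1 hp
      have h2 := Finset.mem_Icc.1 hp.1
      exact Finset.mem_filter.2 ⟨Finset.mem_Icc.2 ⟨by omega, h2.2⟩, hp.2⟩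
    exact_mod_cast this
  have hScard : (S.card : ℝ) = (Nat.totient D : ℝ) / 2 := by
    have : (2 * S.card : ℝ) = Nat.totient D := by exact_mod_cast hhalf
    linarith
  rw [hScard] at hlow
  have e1 : (Nat.totient D : ℝ) / 2 * (H343E.pi1 y / (Nat.totient D : ℝ) - y / l ^ 6) =
      H343E.pi1 y / 2 - (Nat.totient D : ℝ) / 2 * (y / l ^ 6) := by
    field_simp
  rw [e1] at hlow
  have e2 : (Nat.totient D : ℝ) / 2 * (y / l ^ 6) ≤ y / (40 * l) := by
    have l5 : l ≤ l ^ 5 := by
      calc l = l ^ 1 := (pow_one l).symm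
        _ ≤ l ^ 5 := pow_le_pow_right₀ hl1 (by norm_num)
    have : (Nat.totient D : ℝ) / 2 * (y / l ^ 6) = (Nat.totient D : ℝ) / 2 / l ^ 5 * (y / l) := by
      field_simp
    rw [this]
    have h3 : (Nat.totient D : ℝ) / 2 / l ^ 5 ≤ 1 / 40 := by
      rw [div_le_iff₀ (by positivity)]
      linarith
    calc (Nat.totient D : ℝ) / 2 / l ^ 5 * (y / l) ≤ 1 / 40 * (y / l) :=
          mul_le_mul_of_nonneg_right h3 (by positivity)
      _ = y / (40 * l) := by field_simp
  have e3 : 1 ≤ (y:ℝ) / (40 * l) := by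
    rw [le_div_iff₀ (by positivity)]; linarith
  have e4 : (y:ℝ) / (5 * l) = y / (2 * l) / 2 - y / (40 * l) - y / (40 * l) := by
    field_simp
    ring
  rw [e4]
  linarith

end Pool.Agent.W32.LT
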